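import Pool.Agent.H63.SEP.Stmts3

/-!
Project SEP, module CO1: coding countable transitive sets by points.
-/

set_option linter.unusedVariables false
set_option synthInstance.maxSize 100000

namespace SW.SEP

open SW

section
variable {N : Type} [SetStr N] [ZFC N]

theorem co1_one_eq : (one : N) = suc emp := ext fun z => by simp [one]

theorem co1_one : E (one : N) om := by
  rw [co1_one_eq]; exact suc_mem_om emp_mem_om

theorem co1_two_eq : (two : N) = suc (suc emp) := by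
  refine ext fun z => ?_
  have h : (sing emp : N) = suc emp := ext fun z => by simp
  simp [two, h]

theorem co1_two : E (two : N) om := by
  rw [co1_two_eq]; exact suc_mem_om (suc_mem_om emp_mem_om)

theorem co1_ne01 : (emp : N) ≠ one := by
  rw [co1_one_eq]; exact (suc_ne_emp _).symm

theorem co1_ne02 : (emp : N) ≠ two := by
  rw [co1_two_eq]; exact (suc_ne_emp _).symm

theorem co1_ne12 : (one : N) ≠ two := by
  rw [co1_two_eq, co1_one_eq]
  intro h
  exact suc_ne_emp _ (suc_inj h).symm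

/-- the least number assigned to `y` by the relation `g` -/
noncomputable def lnm (g y : N) : N :=
  the (fun n => E n om ∧ E (opair y n) g ∧ ∀ m, E m n → ¬ E (opair y m) g)

theorem lnm_df : Fn2 (fun g y : N => lnm g y) := by unfold lnm; infer_instance

instance {n : ℕ} {t s : (Fin n → N) → N} [ht : DfT t] [hs : DfT s] :
    DfT (fun v => lnm (t v) (s v)) := lnm_df.comp2 ht hs

theorem lnm_spec {g y n : N} (hn : E n om) (h : E (opair y n) g) :
    E (lnm g y) om ∧ E (opair y (lnm g y)) g := by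
  obtain ⟨b, hb, ⟨hbo, hb1⟩, hb2, hb3⟩ := ord_min
    (C := fun m : N => E m om ∧ E (opair y m) g) inferInstance (Ord_nat hn) ⟨hn, h⟩
  have key := the_spec (p := fun n => E n om ∧ E (opair y n) g ∧ ∀ m, E m n → ¬ E (opair y m) g)
    ⟨b, ⟨hbo, hb1, fun m hm hmg => hb2 m hm ⟨Trans_om b hbo m hm, hmg⟩⟩, ?_⟩
  · exact ⟨key.1, key.2.1⟩
  · rintro c ⟨hc1, hc2, hc3⟩
    rcases (Ord_nat hc1).tri hb with h1 | h1 | h1
    · exact absurd ⟨hc1, hc2⟩ (hb2 c h1)
    · exact h1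
    · exact absurd hb1 (hc3 b h1)

end

section
variable {N : Type} [SetStr N] [ZFC N] {k g A : N}

/-- the numbers at which the code of `A` has the value `emp` -/
def CdP (k g A x : N) : Prop := (∃ a, E a A ∧ x = app k (opair emp (lnm g a))) ∨
  (∃ a b, E a A ∧ E b A ∧ E a b ∧ x = app k (opair one (app k (opair (lnm g a) (lnm g b))))) ∨
  ∃ n, E n om ∧ x = app k (opair two (app k (opair n (lnm g n))))

theorem CdP_df : Df (fun v : Fin 4 → N => CdP (v 0) (v 1) (v 2) (v 3)) := by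
  unfold CdP; infer_instance

instance {n : ℕ} {t s u x : (Fin n → N) → N} [ht : DfT t] [hs : DfT s] [hu : DfT u]
    [hx : DfT x] : Df (fun v => CdP (t v) (s v) (u v) (x v)) :=
  CdP_df.comp4 (R := fun a b c d => CdP a b c d) ht hs hu hx

/-- the code of `A` -/
noncomputable def cdw (k g A : N) : N := sep (prod om om) (fun t => ∃ x y, t = opair x y ∧
  ((CdP k g A x ∧ y = emp) ∨ (¬ CdP k g A x ∧ y = one)))

theorem mem_cdw {x y : N} : E (opair x y) (cdw k g A) ↔ E x om ∧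
    ((CdP k g A x ∧ y = emp) ∨ (¬ CdP k g A x ∧ y = one)) := by
  unfold cdw
  rw [mem_sep, mem_prod]
  constructor
  · rintro ⟨⟨hx, hy⟩, x', y', h, h'⟩
    rw [opair_inj] at h
    obtain ⟨rfl, rfl⟩ := h
    exact ⟨hx, h'⟩
  · rintro ⟨hx, h⟩
    refine ⟨⟨hx, ?_⟩, x, y, rfl, h⟩
    rcases h with ⟨_, rfl⟩ | ⟨_, rfl⟩
    · exact emp_mem_om
    · exact co1_one

theorem cdw_emp {x : N} (hx : E x om) : E (opair x emp) (cdw k g A) ↔ CdP k g A x := by
  rw [mem_cdw]
  constructor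
  · rintro ⟨_, ⟨h, _⟩ | ⟨_, h⟩⟩
    · exact h
    · exact absurd h co1_ne01
  · exact fun h => ⟨hx, Or.inl ⟨h, rfl⟩⟩

theorem cdw_fnc : Fnc om om (cdw k g A) := by
  refine ⟨fun z hz => ?_, fun x hx => ?_, fun x y y' h h' => ?_⟩
  · have hz' := hz
    unfold cdw at hz'
    rw [mem_sep] at hz'
    obtain ⟨h1, x, y, rfl, _⟩ := hz'
    rw [mem_prod] at h1
    exact ⟨x, y, h1.1, h1.2, rfl⟩
  · by_cases h : CdP k g A x
    · exact ⟨emp, mem_cdw.2 ⟨hx, Or.inl ⟨h, rfl⟩⟩⟩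
    · exact ⟨one, mem_cdw.2 ⟨hx, Or.inr ⟨h, rfl⟩⟩⟩
  · rw [mem_cdw] at h h'
    rcases h.2 with ⟨h1, rfl⟩ | ⟨h1, rfl⟩ <;> rcases h'.2 with ⟨h2, rfl⟩ | ⟨h2, rfl⟩
    · rfl
    · exact absurd h1 h2
    · exact absurd h2 h1
    · rfl

/-- the data: an injection of `A` to `om` -/
structure CdA (k g A : N) : Prop where
  k2 : Inj2 k
  omA : Sub om A
  ino : ∀ a, E a A → E (lnm g a) om
  inj : ∀ a b, E a A → E b A → lnm g a = lnm g b → a = b

theorem CdA.dm (h : CdA k g A) {m : N} : Dm k (cdw k g A) m ↔ ∃ a, E a A ∧ m = lnm g a := by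
  unfold Dm
  constructor
  · rintro ⟨hm, h1⟩
    rw [cdw_emp (h.k2.1 _ _ emp_mem_om hm)] at h1
    rcases h1 with ⟨a, ha, h1⟩ | ⟨a, b, ha, hb, _, h1⟩ | ⟨n, hn, h1⟩
    · exact ⟨a, ha, (h.k2.2 _ _ _ _ emp_mem_om hm emp_mem_om (h.ino a ha) h1).2⟩
    · exact absurd (h.k2.2 _ _ _ _ emp_mem_om hm co1_one
        (h.k2.1 _ _ (h.ino a ha) (h.ino b hb)) h1).1 co1_ne01
    · exact absurd (h.k2.2 _ _ _ _ emp_mem_om hm co1_two
        (h.k2.1 _ _ hn (h.ino n (h.omA n hn))) h1).1 co1_ne02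
  · rintro ⟨a, ha, rfl⟩
    exact ⟨h.ino a ha, (cdw_emp (h.k2.1 _ _ emp_mem_om (h.ino a ha))).2 (Or.inl ⟨a, ha, rfl⟩)⟩

theorem CdA.em (h : CdA k g A) {a b : N} (ha : E a A) (hb : E b A) :
    Em k (cdw k g A) (lnm g a) (lnm g b) ↔ E a b := by
  unfold Em
  have ho := h.k2.1 _ _ (h.ino a ha) (h.ino b hb)
  rw [cdw_emp (h.k2.1 _ _ co1_one ho)]
  constructor
  · rintro (⟨c, hc, h1⟩ | ⟨a', b', ha', hb', he, h1⟩ | ⟨n, hn, h1⟩)
    · exact absurd (h.k2.2 _ _ _ _ co1_one ho emp_mem_om (h.ino c hc) h1).1 co1_ne01.symm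
    · have h2 := (h.k2.2 _ _ _ _ co1_one ho co1_one
        (h.k2.1 _ _ (h.ino a' ha') (h.ino b' hb')) h1).2
      have h3 := h.k2.2 _ _ _ _ (h.ino a ha) (h.ino b hb) (h.ino a' ha') (h.ino b' hb') h2
      rw [h.inj a a' ha ha' h3.1, h.inj b b' hb hb' h3.2]
      exact he
    · exact absurd (h.k2.2 _ _ _ _ co1_one ho co1_two
        (h.k2.1 _ _ hn (h.ino n (h.omA n hn))) h1).1 co1_ne12
  · exact fun he => Or.inr (Or.inl ⟨a, b, ha, hb, he, rfl⟩)

theorem CdA.nu (h : CdA k g A) {a m : N} (ha : E a om) (hm : E m om) :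
    Nu k (cdw k g A) a m ↔ m = lnm g a := by
  unfold Nu
  have ho := h.k2.1 _ _ ha hm
  rw [cdw_emp (h.k2.1 _ _ co1_two ho)]
  constructor
  · rintro (⟨c, hc, h1⟩ | ⟨a', b', ha', hb', he, h1⟩ | ⟨n, hn, h1⟩)
    · exact absurd (h.k2.2 _ _ _ _ co1_two ho emp_mem_om (h.ino c hc) h1).1 co1_ne02.symm
    · exact absurd (h.k2.2 _ _ _ _ co1_two ho co1_one
        (h.k2.1 _ _ (h.ino a' ha') (h.ino b' hb')) h1).1 co1_ne12.symm
    · have hn' := h.ino n (h.omA n hn)
      have h2 := (h.k2.2 _ _ _ _ co1_two ho co1_two (h.k2.1 _ _ hn hn') h1).2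
      have h3 := h.k2.2 _ _ _ _ ha hm hn hn' h2
      rw [h3.2, h3.1]
  · rintro rfl
    exact Or.inr (Or.inr ⟨a, ha, rfl⟩)

/-- ordered pairs in transitive sets -/
theorem co1_op (hA : Trans A) {t b c : N} (ht : E t A) (hb : E b A) (hc : E c A) :
    IsOP (M := SubS A) ⟨t, ht⟩ ⟨b, hb⟩ ⟨c, hc⟩ ↔ t = opair b c := by
  constructor
  · rintro ⟨s, s', h1, h2, h3⟩
    have e1 : s.1 = sing b := by
      refine ext fun w => ?_
      rw [mem_sing]
      constructor
      · intro hw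
        have := (h1 ⟨w, hA s.1 s.2 w hw⟩).1 hw
        exact congrArg Subtype.val this
      · rintro rfl
        exact (h1 ⟨w, hb⟩).2 rfl
    have e2 : s'.1 = upair b c := by
      refine ext fun w => ?_
      rw [mem_upair]
      constructor
      · intro hw
        rcases (h2 ⟨w, hA s'.1 s'.2 w hw⟩).1 hw with h | h
        · exact Or.inl (congrArg Subtype.val h)
        · exact Or.inr (congrArg Subtype.val h)
      · rintro (rfl | rfl)
        · exact (h2 ⟨w, hb⟩).2 (Or.inl rfl)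
        · exact (h2 ⟨w, hc⟩).2 (Or.inr rfl)
    refine ext fun w => ?_
    unfold opair
    rw [mem_upair, ← e1, ← e2]
    constructor
    · intro hw
      rcases (h3 ⟨w, hA t ht w hw⟩).1 hw with h | h
      · exact Or.inl (congrArg Subtype.val h)
      · exact Or.inr (congrArg Subtype.val h)
    · rintro (rfl | rfl)
      · exact (h3 s).2 (Or.inl rfl)
      · exact (h3 s').2 (Or.inr rfl)
  · rintro rfl
    have hs : E (sing b) A := hA _ ht _ (by simp [opair])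
    have hs' : E (upair b c) A := hA _ ht _ (by simp [opair])
    refine ⟨⟨sing b, hs⟩, ⟨upair b c, hs'⟩, fun w => ?_, fun w => ?_, fun w => ?_⟩
    · constructor
      · intro h
        exact Subtype.ext (mem_sing.1 h)
      · rintro rfl
        exact mem_sing.2 rfl
    · constructor
      · intro h
        rcases mem_upair.1 h with h | h
        · exact Or.inl (Subtype.ext h)
        · exact Or.inr (Subtype.ext h)
      · rintro (rfl | rfl)
        · exact mem_upair.2 (Or.inl rfl)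
        · exact mem_upair.2 (Or.inr rfl)
    · constructor
      · intro h
        rcases mem_upair.1 h with h | h
        · exact Or.inl (Subtype.ext h)
        · exact Or.inr (Subtype.ext h)
      · rintro (rfl | rfl)
        · exact mem_upair.2 (Or.inl rfl)
        · exact mem_upair.2 (Or.inr rfl)

open Classical in
/-- the inverse of `lnm g` on `A` -/
noncomputable def lnv (g A x : N) : N := if h : ∃ a, E a A ∧ x = lnm g a then h.choose else emp

theorem CdA.lnv (h : CdA k g A) {a : N} (ha : E a A) : lnv g A (lnm g a) = a := by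
  have h1 : ∃ b, E b A ∧ lnm g a = lnm g b := ⟨a, ha, rfl⟩
  unfold SEP.lnv
  rw [dif_pos h1]
  exact (h.inj a _ ha h1.choose_spec.1 h1.choose_spec.2).symm

/-- satisfaction in the coded structure -/
theorem CdA.sat (hS : SRIStmt) (h : CdA k g A) {n : ℕ} (f : Fml n) (v : Fin n → SubS A) :
    SatR (fun a => Dm k (cdw k g A) a) (fun a b => Em k (cdw k g A) a b) f
      (fun i => lnm g (v i).1) ↔ Sat (M := SubS A) f v := by
  have key := hS N (fun a => Dm k (cdw k g A) a) (fun a b => Em k (cdw k g A) a b) A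
    (fun x => SEP.lnv g A x) ?_ ?_ ?_ ?_ n f (fun i => lnm g (v i).1)
    (fun i => h.dm.2 ⟨(v i).1, (v i).2, rfl⟩) (fun i => by
      show E (SEP.lnv g A (lnm g (v i).1)) A
      rw [h.lnv (v i).2]; exact (v i).2)
  · rw [key]
    have e : (fun i => (⟨SEP.lnv g A (lnm g (v i).1), by
        rw [h.lnv (v i).2]; exact (v i).2⟩ : SubS A)) = v := by
      funext i
      exact Subtype.ext (h.lnv (v i).2)
    rw [e]
  · intro x hx
    obtain ⟨a, ha, rfl⟩ := h.dm.1 hx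
    show E (SEP.lnv g A (lnm g a)) A
    rw [h.lnv ha]; exact ha
  · exact fun a ha => ⟨lnm g a, h.dm.2 ⟨a, ha, rfl⟩, h.lnv ha⟩
  · intro x y hx hy e
    obtain ⟨a, ha, rfl⟩ := h.dm.1 hx
    obtain ⟨b, hb, rfl⟩ := h.dm.1 hy
    have e' : SEP.lnv g A (lnm g a) = SEP.lnv g A (lnm g b) := e
    rw [h.lnv ha, h.lnv hb] at e'
    rw [e']
  · intro x y hx hy
    obtain ⟨a, ha, rfl⟩ := h.dm.1 hx
    obtain ⟨b, hb, rfl⟩ := h.dm.1 hy
    show Em k (cdw k g A) (lnm g a) (lnm g b) ↔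
      E (SEP.lnv g A (lnm g a)) (SEP.lnv g A (lnm g b))
    rw [h.lnv ha, h.lnv hb, h.em ha hb]

theorem CdA.sat1 (hS : SRIStmt) (h : CdA k g A) (f : Fml 1) {z : N} (hz : E z A) :
    SatR (fun a => Dm k (cdw k g A) a) (fun a b => Em k (cdw k g A) a b) f
      ![lnm g z] ↔ Sat (M := SubS A) f ![⟨z, hz⟩] := by
  have e : (![lnm g z] : Fin 1 → N) = fun i => lnm g ((![⟨z, hz⟩] : Fin 1 → SubS A) i).1 := by
    funext i
    fin_cases i
    rfl
  rw [e]
  exact h.sat hS f _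

theorem CdA.sat3 (hS : SRIStmt) (hA : Trans A) (h : CdA k g A) {t b c : N} (ht : E t A)
    (hb : E b A) (hc : E c A) :
    SatR (fun a => Dm k (cdw k g A) a) (fun a b => Em k (cdw k g A) a b) fOP
      ![lnm g t, lnm g b, lnm g c] ↔ t = opair b c := by
  have e : (![lnm g t, lnm g b, lnm g c] : Fin 3 → N) =
      fun i => lnm g ((![⟨t, ht⟩, ⟨b, hb⟩, ⟨c, hc⟩] : Fin 3 → SubS A) i).1 := by
    funext i
    fin_cases i
    · rfl
    · rfl
    · rfl
  rw [e, h.sat hS fOP _, ← fOP_spec]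
  exact co1_op hA ht hb hc

end

/-- CO1 -/
theorem sep_co1 (hS : SRIStmt) : CO1Stmt := by
  intro N _ _ k f hk z A hz hA hc hzA hf
  obtain ⟨g, hg1, hg2⟩ := hc
  have hop : ∀ n, E n om → ∃ y, E y om ∧ E (opair n y) z ∧ E (opair n y) A := by
    intro n hn
    obtain ⟨y, hy⟩ := hz.2.1 n hn
    obtain ⟨x', y', hx', hy', e⟩ := hz.1 _ hy
    rw [opair_inj] at e
    obtain ⟨rfl, rfl⟩ := e
    exact ⟨y, hy', hy, hA _ hzA _ hy⟩
  have hom : Sub om A := by
    intro n hn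
    obtain ⟨y, hy, h1, h2⟩ := hop n hn
    have hs : E (sing n) A := hA _ h2 _ (by simp [opair])
    exact hA _ hs _ (by simp)
  have hd : CdA k g A := by
    refine ⟨hk, hom, fun a ha => ?_, fun a b ha hb e => ?_⟩
    · obtain ⟨n, hn, h⟩ := hg1 a ha
      exact (lnm_spec hn h).1
    · obtain ⟨n, hn, h⟩ := hg1 a ha
      obtain ⟨n', hn', h'⟩ := hg1 b hb
      have h1 := lnm_spec hn h
      have h2 := lnm_spec hn' h'
      exact hg2 a b (lnm g a) ha hb h1.1 h1.2 (by rw [e]; exact h2.2)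
  refine ⟨cdw k g A, cdw_fnc, ⟨?_, ?_, ?_, ?_⟩, ?_⟩
  · intro m m' hm hm' h
    obtain ⟨a, ha, rfl⟩ := hd.dm.1 hm
    obtain ⟨b, hb, rfl⟩ := hd.dm.1 hm'
    have : a = b := by
      refine ext fun c => ⟨fun hc => ?_, fun hc => ?_⟩
      · have hcA := hA a ha c hc
        exact (hd.em hcA hb).1 ((h _ (hd.dm.2 ⟨c, hcA, rfl⟩)).1 ((hd.em hcA ha).2 hc))
      · have hcA := hA b hb c hc
        exact (hd.em hcA ha).1 ((h _ (hd.dm.2 ⟨c, hcA, rfl⟩)).2 ((hd.em hcA hb).2 hc))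
    rw [this]
  · intro a ha
    exact ⟨lnm g a, hd.dm.2 ⟨a, hom a ha, rfl⟩, (hd.nu ha (hd.ino a (hom a ha))).2 rfl⟩
  · intro a m ha hm h
    rw [hd.nu ha hm] at h
    subst h
    refine ⟨hd.dm.2 ⟨a, hom a ha, rfl⟩, fun b hb => ?_⟩
    obtain ⟨c, hc, rfl⟩ := hd.dm.1 hb
    rw [hd.em hc (hom a ha)]
    constructor
    · intro hca
      have hco := Trans_om a ha c hca
      exact ⟨c, hca, (hd.nu hco (hd.ino c hc)).2 rfl⟩
    · rintro ⟨a', ha', h'⟩
      have hao := Trans_om a ha a' ha'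
      rw [hd.nu hao (hd.ino c hc)] at h'
      rw [hd.inj c a' hc (hom a' hao) h']
      exact ha'
  · refine ⟨lnm g z, hd.dm.2 ⟨z, hzA, rfl⟩, (hd.sat1 hS f hzA).2 hf, ?_, ?_⟩
    · intro a ha h
      obtain ⟨t, ht, rfl⟩ := hd.dm.1 ha
      rw [hd.em ht hzA] at h
      obtain ⟨b, c, hb, hc, rfl⟩ := hz.1 t h
      have hb' := hd.ino b (hom b hb)
      have hc' := hd.ino c (hom c hc)
      exact ⟨b, c, lnm g b, lnm g c, hb, hc, hb', hc', h, (hd.nu hb hb').2 rfl,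
        (hd.nu hc hc').2 rfl, (hd.sat3 hS hA ht (hom b hb) (hom c hc)).2 rfl⟩
    · intro b c hb hc h
      have ht : E (opair b c) A := hA _ hzA _ h
      have hb' := hd.ino b (hom b hb)
      have hc' := hd.ino c (hom c hc)
      exact ⟨lnm g (opair b c), lnm g b, lnm g c, hd.dm.2 ⟨_, ht, rfl⟩, hb', hc',
        (hd.em ht hzA).2 h, (hd.nu hb hb').2 rfl, (hd.nu hc hc').2 rfl,
        (hd.sat3 hS hA ht (hom b hb) (hom c hc)).2 rfl⟩
  · intro v hv
    by_contra hw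
    unfold Wd at hw
    push Not at hw
    have hw' : ∀ n m m', E n om → E (opair n m) v → E (opair (suc n) m') v →
        Dm k (cdw k g A) m ∧ Dm k (cdw k g A) m' ∧ Em k (cdw k g A) m' m := hw
    obtain ⟨m0, hm0⟩ := hv.2.1 emp emp_mem_om
    obtain ⟨m1, hm1⟩ := hv.2.1 (suc emp) (suc_mem_om emp_mem_om)
    obtain ⟨a0, ha0, e0⟩ := hd.dm.1 (hw' emp m0 m1 emp_mem_om hm0 hm1).1
    obtain ⟨a, ha, hmin⟩ := ZF.found (sep A (fun a => ∃ n, E n om ∧ E (opair n (lnm g a)) v))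
      ⟨a0, mem_sep.2 ⟨ha0, emp, emp_mem_om, by rw [← e0]; exact hm0⟩⟩
    rw [mem_sep] at ha
    obtain ⟨haA, n, hn, hna⟩ := ha
    obtain ⟨m', hm'⟩ := hv.2.1 (suc n) (suc_mem_om hn)
    obtain ⟨_, h2, h3⟩ := hw' n _ m' hn hna hm'
    obtain ⟨b, hb, rfl⟩ := hd.dm.1 h2
    rw [hd.em hb haA] at h3
    exact hmin b (mem_sep.2 ⟨hb, suc n, suc_mem_om hn, hm'⟩) h3

end SW.SEP
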