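import Pool.Agent.H63.SEP.Stmts3

/-!
Project SEP, module ZSG: the set of points of a ground model of constructibility has a
Sigma-1-2 definition.
-/

set_option linter.unusedVariables false
set_option synthInstance.maxSize 100000

namespace SW.SEP

open SW

/-- Borel relations are definable on the points -/
theorem BD.df {N : Type} [SetStr N] [ZFC N] {R : N → N → N → N → Prop} (h : BD R) :
    ∃ R' : N → N → N → N → Prop, Df (fun v : Fin 4 → N => R' (v 0) (v 1) (v 2) (v 3)) ∧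
      ∀ x y w v, Fnc om om x → Fnc om om y → Fnc om om w → Fnc om om v →
        (R x y w v ↔ R' x y w v) := by
  induction h with
  | base R hR n hn h => exact ⟨R, hR, fun _ _ _ _ _ _ _ _ => Iff.rfl⟩
  | neg h ih =>
    obtain ⟨R', h1, h2⟩ := ih
    exact ⟨fun x y w v => ¬ R' x y w v, Df.not, fun x y w v hx hy hw hv =>
      not_congr (h2 x y w v hx hy hw hv)⟩
  | all R hR h ih =>
    refine ⟨fun x y w v => ∀ k, E k om → R k x y w v, ?_, fun _ _ _ _ _ _ _ _ => Iff.rfl⟩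
    exact Df.all (P := fun k (v : Fin 4 → N) => E k om → R k (v 0) (v 1) (v 2) (v 3))
      (h := Df.imp (hQ := hR))
  | congr h e ih =>
    obtain ⟨R', h1, h2⟩ := ih
    exact ⟨R', h1, fun x y w v hx hy hw hv =>
      (e x y w v hx hy hw hv).symm.trans (h2 x y w v hx hy hw hv)⟩

/-- the conjunction of two Borel relations -/
theorem BD.and' (hB : BDFStmt) {N : Type} [SetStr N] [ZFC N] {P Q : N → N → N → N → Prop}
    (h1 : BD P) (h2 : BD Q) : BD (fun x y w v => P x y w v ∧ Q x y w v) := by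
  obtain ⟨P', hP, e1⟩ := h1.df
  obtain ⟨Q', hQ, e2⟩ := h2.df
  exact ((hB N).1 P' Q' hP hQ (h1.congr e1) (h2.congr e2)).1.congr fun x y w v hx hy hw hv => by
    rw [e1 x y w v hx hy hw hv, e2 x y w v hx hy hw hv]

/-- satisfaction is invariant under isomorphisms -/
theorem Sat_iso {K L : Type} [SetStr K] [SetStr L] (φ : K → L) (h1 : ∀ x y, φ x = φ y → x = y)
    (h2 : ∀ y, ∃ x, φ x = y) (h3 : ∀ x y, E (φ x) (φ y) ↔ E x y) : ∀ {n : ℕ} (f : Fml n)
    (v : Fin n → K), Sat f (fun i => φ (v i)) ↔ Sat f v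
  | _, .mem i j, v => h3 _ _
  | _, .eq i j, v => ⟨h1 _ _, fun h => congrArg φ h⟩
  | _, .bot, v => Iff.rfl
  | _, .imp f g, v => by
    simp only [Sat]
    rw [Sat_iso φ h1 h2 h3 f, Sat_iso φ h1 h2 h3 g]
  | _, .all f, v => by
    simp only [Sat]
    have key : ∀ x : K, (Fin.cons (φ x) (fun i => φ (v i)) : Fin _ → L) =
        fun i => φ ((Fin.cons x v : Fin _ → K) i) := by
      intro x
      funext i
      refine Fin.cases ?_ (fun j => ?_) i
      · simp
      · simp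
    constructor
    · intro h x
      have := h (φ x)
      rw [key] at this
      exact (Sat_iso φ h1 h2 h3 f _).1 this
    · intro h y
      obtain ⟨x, rfl⟩ := h2 y
      rw [key]
      exact (Sat_iso φ h1 h2 h3 f _).2 (h x)

/-- the isomorphism between a transitive set and its image under a transitive embedding -/
theorem Sat_SubS_emb {M N : Type} [SetStr M] [SetStr N] {i : M → N} (hi : TEmb i) (A : M)
    (f : Fml 1) (z : M) (h : E z A) (h' : E (i z) (i A)) :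
    Sat (M := SubS (i A)) f ![⟨i z, h'⟩] ↔ Sat (M := SubS A) f ![⟨z, h⟩] := by
  let φ : SubS A → SubS (i A) := fun x => ⟨i x.1, (hi.mem _ _).2 x.2⟩
  have key := Sat_iso φ (fun x y e => Subtype.ext (hi.inj _ _ (congrArg Subtype.val e)))
    (fun y => by
      obtain ⟨x, hx⟩ := hi.tr _ _ y.2
      refine ⟨⟨x, (hi.mem _ _).1 (hx ▸ y.2)⟩, Subtype.ext hx.symm⟩)
    (fun x y => hi.mem _ _) f ![⟨z, h⟩]
  have e : (fun j => φ ((![⟨z, h⟩] : Fin 1 → SubS A) j)) = ![⟨i z, h'⟩] := by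
    funext j
    have hj : j = 0 := Subsingleton.elim _ _
    subst hj
    rfl
  rw [e] at key
  exact key

/-- ZSG -/
theorem sep_zsg (hTEF : TEFStmt) (hBDF : BDFStmt) (hHWV : HWVStmt) (hQLS : QLSStmt) (hQUP : QUPStmt)
    (hCOB : COBStmt) (hCO1 : CO1Stmt) (hCO2 : CO2Stmt) (hIN2 : IN2Stmt) : ZSGStmt := by
  intro M N _ _ _ _ i hi hord hL
  have T := hTEF M N i hi
  obtain ⟨f0, hf0⟩ := Q0_u.out
  obtain ⟨k, hk⟩ := hIN2 N
  have hpt : ∀ {z0 : M}, E z0 BS ↔ Fnc om om (i z0) := by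
    intro z0
    rw [mem_BS, ← T.om, T.fnc]
  refine ⟨?_, fun x y w v => COk k f0 x y ∧ Wd k y v, BD.and' hBDF (hCOB N k f0 hk).1 (hCOB N k f0 hk).2,
    ?_⟩
  · intro z hz
    obtain ⟨z0, hz0, rfl⟩ := T.mem'.1 hz
    exact hpt.1 hz0
  · intro z hz
    constructor
    · intro h
      obtain ⟨z0, hz0, rfl⟩ := T.mem'.1 h
      obtain ⟨A, hA1, hA2, hzA, hQ⟩ := hQLS M (hHWV M hL) z0 (mem_BS.1 hz0)
      have hzA' : E (i z0) (i A) := (hi.mem _ _).2 hzA
      have hs : Sat (M := SubS (i A)) f0 ![⟨i z0, hzA'⟩] := by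
        rw [Sat_SubS_emb hi A f0 z0 hzA hzA', ← hf0]
        exact hQ
      have htr : Trans (i A) := by
        intro y hy x hx
        obtain ⟨y0, hy0, rfl⟩ := T.mem'.1 hy
        obtain ⟨x0, hx0, rfl⟩ := T.mem'.1 hx
        exact (hi.mem _ _).2 (hA1 y0 hy0 x0 hx0)
      have hcb : Cb (i A) := by
        obtain ⟨g, hg1, hg2⟩ := hA2
        refine ⟨i g, fun y hy => ?_, fun y y' n hy hy' hn h1 h2 => ?_⟩
        · obtain ⟨y0, hy0, rfl⟩ := T.mem'.1 hy
          obtain ⟨n, hn, h⟩ := hg1 y0 hy0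
          refine ⟨i n, ?_, ?_⟩
          · rw [← T.om]; exact (hi.mem _ _).2 hn
          · rw [← T.opair]; exact (hi.mem _ _).2 h
        · obtain ⟨y0, hy0, rfl⟩ := T.mem'.1 hy
          obtain ⟨y1, hy1, rfl⟩ := T.mem'.1 hy'
          rw [← T.om] at hn
          obtain ⟨n0, hn0, rfl⟩ := T.mem'.1 hn
          rw [← T.opair, hi.mem] at h1 h2
          rw [hg2 y0 y1 n0 hy0 hy1 hn0 h1 h2]
      obtain ⟨w, hw, h1, h2⟩ := hCO1 N k f0 hk (i z0) (i A) hz htr hcb hzA' hs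
      exact ⟨w, hw, fun v hv => ⟨h1, h2 v hv⟩⟩
    · rintro ⟨w, hw, h⟩
      obtain ⟨A, hA1, hA2, hzA, hs⟩ := hCO2 N k f0 hk z w hz hw (h w hw).1
        (fun v hv => (h v hv).2)
      have hQ : Q0 (N := SubS A) ⟨z, hzA⟩ := by
        have := (hf0 (SubS A) ![⟨z, hzA⟩]).2 hs
        exact this
      obtain ⟨z0, rfl⟩ := hQUP M N i hi hord A z hzA hA1 hQ
      exact (hi.mem _ _).2 (hpt.2 hz)

end SW.SEP
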